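import Pool.Agent.TH246.PR.Planar

set_option autoImplicit false

/-!
A bound, cubic in the number of labels, for the relative cliques of planar coloured mixed graphs.
-/

namespace Pool.Agent.Results.MP_1c6977_co.CubicBound

open Pool.Agent.H239R2.Planar (IsPlanar)
open Pool.Agent.TH246.PR (F8 dot planar_good)

/-- The labels of the adjacencies of an `(n, m)`-graph: an arc of one of `n` types leaving or
entering the first vertex, or an edge of one of `m` types. -/
abbrev Lab (n m : ℕ) : Type := (Fin n × Bool) ⊕ Fin m

/-- The label seen from the other end. -/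
def flip {n m : ℕ} : Lab n m → Lab n m :=
  Sum.elim (fun a => Sum.inl (a.1, !a.2)) (fun j => Sum.inr j)

/-- `c` describes an `(n, m)`-graph on `V`: `c u v = none` if `u`, `v` are not adjacent. -/
def IsGraph {V : Type} {n m : ℕ} (c : V → V → Option (Lab n m)) : Prop :=
  (∀ u, c u u = none) ∧ ∀ u v, c v u = Option.map flip (c u v)

/-- The underlying simple graph. -/
def und {V : Type} {n m : ℕ} (c : V → V → Option (Lab n m)) : SimpleGraph V :=
  SimpleGraph.fromRel (fun u v => c u v ≠ none)

/-- Homomorphisms of `(n, m)`-graphs. -/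
def IsHom {V W : Type} {n m : ℕ} (c : V → V → Option (Lab n m)) (d : W → W → Option (Lab n m))
    (f : V → W) : Prop := ∀ u v t, c u v = some t → d (f u) (f v) = some t

/-- Relative cliques: all homomorphisms to `(n, m)`-graphs are injective on `R`. -/
def IsRelClique {V : Type} {n m : ℕ} (c : V → V → Option (Lab n m)) (R : Finset V) : Prop :=
  ∀ (W : Type) (d : W → W → Option (Lab n m)), IsGraph d → ∀ f : V → W, IsHom c d f →
    Set.InjOn f (R : Set V)

theorem flip_flip {n m : ℕ} (t : Lab n m) : flip (flip t) = t := by
  rcases t with ⟨a, b⟩ | j <;> simp [flip]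

theorem map_flip_flip {n m : ℕ} (t : Option (Lab n m)) :
    Option.map flip (Option.map flip t) = t := by
  cases t with
  | none => rfl
  | some t => simp [flip_flip]

section target

variable {n m r : ℕ} (e : F8 ≃ Fin 8) (i : Lab n m → Fin r → ZMod 2)

open Classical in
/-- decoding -/
noncomputable def dec (b : Fin r → ZMod 2) : Option (Lab n m) :=
  if h : ∃ t, i t = b then some h.choose else none

theorem dec_i (hi : Function.Injective i) (t : Lab n m) : dec i (i t) = some t := by
  unfold dec
  have h : ∃ t', i t' = i t := ⟨t, rfl⟩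
  rw [dif_pos h]
  exact congrArg some (hi h.choose_spec)

/-- the bits between two points of the target -/
def bits (x y : F8 × (Fin r → F8)) : Fin r → ZMod 2 := fun k => dot (x.1 + y.1) (x.2 k + y.2 k)

theorem bits_comm (x y : F8 × (Fin r → F8)) : bits x y = bits y x := by
  funext k
  unfold bits
  rw [add_comm x.1, add_comm (x.2 k)]

open Classical in
/-- the target -/
noncomputable def tgt (x y : F8 × (Fin r → F8)) : Option (Lab n m) :=
  if x.1 = y.1 then none
  else if e x.1 < e y.1 then dec i (bits x y) else Option.map flip (dec i (bits x y))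

theorem tgt_graph : IsGraph (tgt e i) := by
  constructor
  · intro u
    simp [tgt]
  · intro u v
    unfold tgt
    by_cases h : u.1 = v.1
    · rw [if_pos h, if_pos h.symm]; rfl
    · have h' : ¬ v.1 = u.1 := fun h1 => h h1.symm
      rw [if_neg h, if_neg h', bits_comm v u]
      have hne : e u.1 ≠ e v.1 := fun h1 => h (e.injective h1)
      rcases lt_or_gt_of_ne hne with h1 | h1
      · rw [if_pos h1, if_neg (not_lt.2 h1.le)]
      · rw [if_neg (not_lt.2 h1.le), if_pos h1, map_flip_flip]

end target

/-- The universal target: if `2 n + m ≤ 2 ^ r` then every finite planar `(n, m)`-graph has a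
homomorphism to one fixed `(n, m)`-graph with `8 ^ (r + 1)` vertices. -/
theorem hom_target {n m r : ℕ} (h : 2 * n + m ≤ 2 ^ r) :
    ∃ d : (F8 × (Fin r → F8)) → (F8 × (Fin r → F8)) → Option (Lab n m), IsGraph d ∧
      ∀ (V : Type) [Finite V] (c : V → V → Option (Lab n m)), IsGraph c → IsPlanar (und c) →
        ∃ f : V → F8 × (Fin r → F8), IsHom c d f := by
  classical
  have hcard : Fintype.card (Lab n m) ≤ Fintype.card (Fin r → ZMod 2) := by
    simp only [Fintype.card_sum, Fintype.card_prod, Fintype.card_fin, Fintype.card_bool,
      Fintype.card_fun, ZMod.card]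
    omega
  obtain ⟨i⟩ := Function.Embedding.nonempty_of_card_le hcard
  let e : F8 ≃ Fin 8 := Fintype.equivFinOfCardEq (by simp [F8])
  refine ⟨tgt e i, tgt_graph e i, ?_⟩
  intro V _ c hc hP
  obtain ⟨w, hw⟩ := planar_good (und c) hP
  -- the label of an adjacency seen from the end with the smaller colour
  let lo : V → V → Option (Lab n m) := fun u v => if e (w u) < e (w v) then c u v else c v u
  let bit : Fin r → V → V → ZMod 2 := fun k u v =>
    if w u = w v then 0 else (match lo u v with
      | none => 0
      | some t => i t k)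
  have hlo : ∀ u v, w u ≠ w v → lo u v = lo v u := by
    intro u v hne
    simp only [lo]
    have hne' : e (w u) ≠ e (w v) := fun h1 => hne (e.injective h1)
    rcases lt_or_gt_of_ne hne' with h1 | h1
    · rw [if_pos h1, if_neg (not_lt.2 h1.le)]
    · rw [if_neg (not_lt.2 h1.le), if_pos h1]
  have hbit : ∀ k u v, bit k u v = bit k v u := by
    intro k u v
    simp only [bit]
    by_cases h1 : w u = w v
    · rw [if_pos h1, if_pos h1.symm]
    · rw [if_neg h1, if_neg (fun h2 => h1 h2.symm), hlo u v h1]
  have hs : ∀ k, ∃ s : V → F8, ∀ u v, (und c).Adj u v → dot (w u + w v) (s u + s v) = bit k u v :=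
    fun k => hw (bit k) (hbit k)
  choose s hs using hs
  refine ⟨fun v => (w v, fun k => s k v), ?_⟩
  intro u v t huv
  have hne : u ≠ v := by
    rintro rfl
    rw [hc.1 u] at huv
    exact absurd huv (by simp)
  have hadj : (und c).Adj u v := by
    unfold und
    rw [SimpleGraph.fromRel_adj]
    exact ⟨hne, Or.inl (by rw [huv]; simp)⟩
  have hwne : w u ≠ w v := by
    intro h1
    obtain ⟨s', hs'⟩ := hw (fun _ _ => 1) (fun _ _ => rfl)
    have := hs' u v hadj
    rw [h1] at this
    have h0 : w v + w v = 0 := by
      funext j
      have : ∀ a : ZMod 2, a + a = 0 := by decide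
      exact this _
    rw [h0] at this
    simp [dot] at this
  have hb : bits (w u, fun k => s k u) (w v, fun k => s k v) = fun k => bit k u v := by
    funext k
    exact hs k u v hadj
  have hvu : c v u = some (flip t) := by
    rw [hc.2 u v, huv]; rfl
  unfold tgt
  simp only
  rw [if_neg hwne, hb]
  by_cases h1 : e (w u) < e (w v)
  · rw [if_pos h1]
    have : (fun k => bit k u v) = i t := by
      funext k
      simp only [bit, lo]
      rw [if_neg hwne, if_pos h1, huv]
    rw [this, dec_i _ i.injective]
  · rw [if_neg h1]
    have : (fun k => bit k u v) = i (flip t) := by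
      funext k
      simp only [bit, lo]
      rw [if_neg hwne, if_neg h1, hvu]
    rw [this, dec_i _ i.injective]
    simp [flip_flip]

/-- **Relative cliques of planar `(n, m)`-graphs have at most `8 ^ (r + 1)` vertices if
`2 n + m ≤ 2 ^ r`.** In particular at most `512` for `2 n + m = 4` and at most `64` for
`2 n + m = 2`. -/
theorem result : ∀ n m r : ℕ, 2 * n + m ≤ 2 ^ r →
    ∀ (V : Type) [Finite V] (c : V → V → Option (Lab n m)), IsGraph c → IsPlanar (und c) →
      ∀ R : Finset V, IsRelClique c R → R.card ≤ 8 ^ (r + 1) := by
  classical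
  intro n m r h V _ c hc hP R hR
  obtain ⟨d, hd, hf⟩ := hom_target h
  obtain ⟨f, hf⟩ := hf V c hc hP
  have hinj := hR _ d hd f hf
  have h1 : R.card = (R.image f).card := (Finset.card_image_of_injOn hinj).symm
  rw [h1]
  calc (R.image f).card ≤ Fintype.card (F8 × (Fin r → F8)) := Finset.card_le_univ _
    _ = 8 ^ (r + 1) := by
      simp only [Fintype.card_prod, Fintype.card_fun, F8, ZMod.card, Fintype.card_fin]
      rw [pow_succ]
      norm_num
      ring

end Pool.Agent.Results.MP_1c6977_co.CubicBound
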