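import Pool.Agent.TH246.RC.Core
import Pool.Agent.TH246.RC.Plan
import Pool.Agent.TH246.RC.Homs

set_option autoImplicit false

/-!
Relative cliques of planar `(n, m)`-graphs have at most `3 p ^ 2 + p + 1` vertices if
`p = 2 n + m` is at least `20000`.
-/

namespace Pool.Agent.Results.MP_1c6977_co.UpperBoundLarge

open Pool.Agent.TH246.RC (special noWeak card_le NoWeak RelCl)

/-- The labels of the adjacencies of an `(n, m)`-graph: an arc of one of `n` types leaving or
entering the first vertex, or an edge of one of `m` types. -/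
abbrev Lab (n m : ℕ) : Type := (Fin n × Bool) ⊕ Fin m

/-- The label seen from the other end. -/
def flip {n m : ℕ} : Lab n m → Lab n m :=
  Sum.elim (fun a => Sum.inl (a.1, !a.2)) (fun j => Sum.inr j)

/-- `c` describes an `(n, m)`-graph on `V`: `c u v = none` if `u`, `v` are not adjacent. -/
def IsGraph {V : Type} {n m : ℕ} (c : V → V → Option (Lab n m)) : Prop :=
  (∀ u, c u u = none) ∧ ∀ u v, c v u = Option.map flip (c u v)

/-- Homomorphisms of `(n, m)`-graphs. -/
def IsHom {V W : Type} {n m : ℕ} (c : V → V → Option (Lab n m)) (d : W → W → Option (Lab n m))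
    (f : V → W) : Prop := ∀ u v t, c u v = some t → d (f u) (f v) = some t

/-- Relative cliques: all homomorphisms to `(n, m)`-graphs are injective on `R`. -/
def IsRelClique {V : Type} {n m : ℕ} (c : V → V → Option (Lab n m)) (R : Finset V) : Prop :=
  ∀ (W : Type) (d : W → W → Option (Lab n m)), IsGraph d → ∀ f : V → W, IsHom c d f →
    Set.InjOn f (R : Set V)

/-- The graph can be drawn in the plane: distinct points for the vertices, a simple arc for every
adjacency, no vertex inside an arc, and no point inside an arc on another arc. -/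
def IsPlanar {V : Type} {n m : ℕ} (c : V → V → Option (Lab n m)) : Prop :=
  ∃ p : V → ℝ × ℝ, Function.Injective p ∧
    ∃ γ : ∀ u v : V, Path (p u) (p v),
      (∀ u v, c u v ≠ none → Function.Injective (γ u v)) ∧
      (∀ u v w, c u v ≠ none → ∀ t : unitInterval,
          0 < (t : ℝ) → (t : ℝ) < 1 → γ u v t ≠ p w) ∧
      (∀ u v x y, c u v ≠ none → c x y ≠ none → ¬(x = u ∧ y = v) →
          ¬(x = v ∧ y = u) → ∀ s t : unitInterval,
          0 < (s : ℝ) → (s : ℝ) < 1 → γ u v s ≠ γ x y t)

/-- If `2 n + m` is at least `20000`, every relative clique of every finite planar `(n, m)`-graph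
has at most `3 (2 n + m) ^ 2 + (2 n + m) + 1` vertices. -/
theorem result (n m : ℕ) (h : 20000 ≤ 2 * n + m) (V : Type) (hV : Finite V)
    (c : V → V → Option (Lab n m)) (hc : IsGraph c) (hp : IsPlanar c) (R : Finset V)
    (hR : IsRelClique c R) : R.card ≤ 3 * (2 * n + m) ^ 2 + (2 * n + m) + 1 := by
  classical
  haveI : Fintype V := Fintype.ofFinite V
  have hsymm : ∀ u v, c u v ≠ none → c v u ≠ none := by
    intro u v huv hvu
    apply huv
    rw [hc.2 v u, hvu]
    rfl
  let G : SimpleGraph V :=
    { Adj := fun u v => c u v ≠ none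
      symm := ⟨fun u v huv => hsymm u v huv⟩
      loopless := ⟨fun u hu => hu (hc.1 u)⟩ }
  have hadj : ∀ u v, G.Adj u v ↔ c u v ≠ none := fun u v => Iff.rfl
  obtain ⟨p, hpi, γ, _, h2, h3⟩ := hp
  have hG : NoWeak G := noWeak p hpi γ h2 h3
  have hcard : Fintype.card (Lab n m) = 2 * n + m := by
    simp [Lab, Fintype.card_sum, Fintype.card_prod, mul_comm]
  let e : Lab n m ≃ Fin (2 * n + m) := Fintype.equivFinOfCardEq hcard
  let lab : V → V → Fin (2 * n + m) := fun w u =>
    match c w u with
    | some t => e t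
    | none => ⟨0, by omega⟩
  have hlab : ∀ w u v, c w u ≠ none → c w v ≠ none → c w u ≠ c w v → lab w u ≠ lab w v := by
    intro w u v hu hv huv
    obtain ⟨t, ht⟩ := Option.ne_none_iff_exists'.mp hu
    obtain ⟨t', ht'⟩ := Option.ne_none_iff_exists'.mp hv
    have hl : lab w u = e t := by simp only [lab, ht]
    have hl' : lab w v = e t' := by simp only [lab, ht']
    rw [hl, hl']
    intro hee
    apply huv
    rw [ht, ht', e.injective hee]
  have hsp := special c hc.1 hc.2 R (fun W d h0 h1 f hf => hR W d ⟨h0, h1⟩ f hf)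
  have hRel : RelCl G lab R := by
    intro r hr s hs hrs
    rcases hsp r hr s hs hrs with h' | ⟨y, hyr, hys, hy⟩
    · exact Or.inl h'
    · exact Or.inr ⟨y, hyr, hys, hlab y r s hyr hys hy⟩
  exact card_le hG hRel h

end Pool.Agent.Results.MP_1c6977_co.UpperBoundLarge
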